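import Pool.Agent.W734.TWB.Stms

/-! Project TWB, part MASS3: three-body mass of the Jastrow trial function. -/

set_option autoImplicit false

open MeasureTheory Set Filter Metric
open Pool.Agent.W734.TWB

namespace Pool.Agent.W140.TWB

lemma peel {n : ℕ} (w : E3 → ℝ) (hw : Integrable w) (i : Fin (n + 1)) (G : E3 × Cfg n → ℝ)
    (hG : Measurable G) (hb : ∃ B : ℝ, ∀ p, |G p| ≤ B) :
    ∫ x : Cfg (n + 1), (∏ l, w (x l)) * G (x i, fun l => x (i.succAbove l)) =
      ∫ z, w z * ∫ y : Cfg n, (∏ l, w (y l)) * G (z, y) := by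
  obtain ⟨B, hB⟩ := hb
  have hmp := volume_preserving_piFinSuccAbove (fun _ : Fin (n + 1) => E3) i
  have h1 := hmp.integral_comp' (fun p : E3 × Cfg n => (w p.1 * ∏ l, w (p.2 l)) * G p)
  have h2 : ∀ x : Cfg (n + 1), (∏ l, w (x l)) * G (x i, fun l => x (i.succAbove l)) =
      (fun p : E3 × Cfg n => (w p.1 * ∏ l, w (p.2 l)) * G p)
        (MeasurableEquiv.piFinSuccAbove (fun _ => E3) i x) := by
    intro x
    rw [Fin.prod_univ_succAbove _ i]
    rfl
  have hi : Integrable (fun y : Cfg n => ∏ l, w (y l)) := Integrable.fintype_prod (fun _ => hw)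
  have hI : Integrable (fun p : E3 × Cfg n => (w p.1 * ∏ l, w (p.2 l)) * G p)
      (volume.prod volume) :=
    (Integrable.mul_prod hw hi).mul_bdd (c := B) hG.aestronglyMeasurable
      (Eventually.of_forall (fun p => by simpa [Real.norm_eq_abs] using hB p))
  rw [integral_congr_ae (Eventually.of_forall h2), h1, Measure.volume_eq_prod, integral_prod _ hI]
  refine integral_congr_ae (Eventually.of_forall (fun z => ?_))
  show ∫ y : Cfg n, (w z * ∏ l, w (y l)) * G (z, y) = w z * ∫ y : Cfg n, (∏ l, w (y l)) * G (z, y)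
  rw [← integral_const_mul]
  refine integral_congr_ae (Eventually.of_forall (fun y => ?_))
  simp only
  ring

lemma marg3 (w : E3 → ℝ) (hw : Integrable w) (h1 : ∫ z, w z = 1) {N : ℕ} (i j k : Fin N)
    (hij : i ≠ j) (hik : i ≠ k) (hjk : j ≠ k) (h : E3 → E3 → E3 → ℝ)
    (hm : Measurable (fun p : E3 × (E3 × E3) => h p.1 p.2.1 p.2.2))
    (hb : ∃ B : ℝ, ∀ a b c, |h a b c| ≤ B) :
    ∫ x : Cfg N, (∏ l, w (x l)) * h (x i) (x j) (x k) =
      ∫ a, w a * ∫ b, w b * ∫ c, w c * h a b c := by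
  obtain ⟨n, rfl⟩ : ∃ n, N = n + 3 := by
    have a1 := i.2
    have a2 := j.2
    have a3 := k.2
    have b1 : i.val ≠ j.val := fun h => hij (Fin.ext h)
    have b2 : i.val ≠ k.val := fun h => hik (Fin.ext h)
    have b3 : j.val ≠ k.val := fun h => hjk (Fin.ext h)
    exact ⟨N - 3, by omega⟩
  obtain ⟨j', rfl⟩ := Fin.exists_succAbove_eq (Ne.symm hij)
  obtain ⟨k', rfl⟩ := Fin.exists_succAbove_eq (Ne.symm hik)
  have hjk' : j' ≠ k' := fun h => hjk (by rw [h])
  obtain ⟨k'', rfl⟩ := Fin.exists_succAbove_eq (Ne.symm hjk')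
  obtain ⟨B, hB⟩ := hb
  have s1 := peel w hw i (fun p : E3 × Cfg (n + 2) => h p.1 (p.2 j') (p.2 (j'.succAbove k'')))
    (hm.comp (by fun_prop : Measurable (fun p : E3 × Cfg (n + 2) =>
      (p.1, (p.2 j', p.2 (j'.succAbove k'')))))) ⟨B, fun p => hB _ _ _⟩
  refine s1.trans ?_
  refine integral_congr_ae (Eventually.of_forall (fun a => ?_))
  refine congrArg (fun t => w a * t) ?_
  have s2 := peel w hw j' (fun p : E3 × Cfg (n + 1) => h a p.1 (p.2 k''))
    (hm.comp (by fun_prop : Measurable (fun p : E3 × Cfg (n + 1) =>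
      (a, (p.1, p.2 k''))))) ⟨B, fun p => hB _ _ _⟩
  refine s2.trans ?_
  refine integral_congr_ae (Eventually.of_forall (fun b => ?_))
  refine congrArg (fun t => w b * t) ?_
  have s3 := peel w hw k'' (fun p : E3 × Cfg n => h a b p.1)
    (hm.comp (by fun_prop : Measurable (fun p : E3 × Cfg n =>
      (a, (b, p.1))))) ⟨B, fun p => hB _ _ _⟩
  refine s3.trans ?_
  refine integral_congr_ae (Eventually.of_forall (fun c => ?_))
  refine congrArg (fun t => w c * t) ?_
  show ∫ y : Cfg n, (∏ l, w (y l)) * h a b c = h a b c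
  rw [integral_mul_const]
  have h2 := integral_fintype_prod_volume_eq_prod (fun (_ : Fin n) (z : E3) => w z)
  rw [h2]
  simp [h1]

lemma sub1 (w g : E3 → ℝ) (s wz : ℝ) (z1 : E3) (hs : 0 < s) (hg0 : ∀ a, 0 ≤ g a)
    (hgi : Integrable g) (hw0 : ∀ a, 0 ≤ w a) (hgR : ∀ a, g a ≠ 0 → w (z1 - s⁻¹ • a) ≤ wz) :
    ∫ z, w z * g (s • (z1 - z)) ≤ (s ^ 3)⁻¹ * (wz * ∫ a, g a) := by
  have e1 : ∫ z, w z * g (s • (z1 - z)) = ∫ z, (fun a => w (z1 - s⁻¹ • a) * g a) (s • z) := by
    rw [← integral_sub_left_eq_self (fun z => w z * g (s • (z1 - z))) volume z1]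
    refine integral_congr_ae (Eventually.of_forall (fun z => ?_))
    simp only [sub_sub_cancel, smul_smul]
    rw [inv_mul_cancel₀ hs.ne', one_smul]
  rw [e1, Measure.integral_comp_smul volume (fun a => w (z1 - s⁻¹ • a) * g a) s,
    finrank_euclideanSpace, Fintype.card_fin,
    abs_of_pos (by positivity), smul_eq_mul]
  refine mul_le_mul_of_nonneg_left ?_ (by positivity)
  rw [← integral_const_mul]
  refine integral_mono_of_nonneg (Eventually.of_forall fun a => mul_nonneg (hw0 _) (hg0 _))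
    (hgi.const_mul wz) (Eventually.of_forall fun a => ?_)
  by_cases h : g a = 0
  · simp [h]
  · exact mul_le_mul_of_nonneg_right (hgR a h) (hg0 a)

lemma intb {X : Type} [NormedAddCommGroup X] [ProperSpace X] [MeasureSpace X] [BorelSpace X]
    [IsFiniteMeasureOnCompacts (volume : Measure X)] (g : X → ℝ) (hm : Measurable g) (M R : ℝ)
    (h0 : ∀ x, 0 ≤ g x) (hM : ∀ x, g x ≤ M) (hR : ∀ x, g x ≠ 0 → ‖x‖ ≤ R) : Integrable g := by
  have hsub : Function.support g ⊆ closedBall (0 : X) R := by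
    intro x hx
    rw [mem_closedBall_zero_iff]
    exact hR x hx
  rw [← integrableOn_iff_integrable_of_support_subset hsub]
  refine Measure.integrableOn_of_bounded (M := M) (measure_closedBall_lt_top.ne)
    hm.aestronglyMeasurable (Eventually.of_forall (fun x => ?_))
  rw [Real.norm_eq_abs, abs_of_nonneg (h0 x)]
  exact hM x

lemma tri (w : E3 → ℝ) (hwc : Continuous w) (hws : HasCompactSupport w) (hw0 : ∀ a, 0 ≤ w a)
    (h1 : ∫ z, w z = 1) (q : E3 × E3 → ℝ) (hq : NB q) (ε : ℝ) (hε : 0 < ε) :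
    ∀ᶠ N : ℕ in atTop,
    ∫ a, w a * ∫ b, w b * ∫ c, w c * ((N : ℝ) * q (Real.sqrt N • (a - b, a - c))) ≤
      1 / (N : ℝ) ^ 2 * ((∫ p, q p) * (∫ z, w z ^ 3) + ε) := by
  obtain ⟨M, hM'⟩ := hws.exists_bound_of_continuous hwc
  have hM : ∀ a, w a ≤ M := fun a => (le_abs_self _).trans (hM' a)
  have hM0 : 0 ≤ M := (hw0 0).trans (hM 0)
  obtain ⟨Bq, hBq⟩ := hq.bdd
  obtain ⟨R0, hR0⟩ := hq.supp.isCompact.isBounded.exists_norm_le
  set R := max R0 1 with hRdef
  have hRpos : 0 < R := lt_of_lt_of_le one_pos (le_max_right _ _)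
  have hR : ∀ p, q p ≠ 0 → ‖p‖ ≤ R := fun p hp =>
    (hR0 p (subset_tsupport q hp)).trans (le_max_left _ _)
  have hqi : Integrable q := intb q hq.meas Bq R hq.nonneg hBq hR
  have hqi' : Integrable q (volume.prod volume) := by
    rwa [← Measure.volume_eq_prod]
  set Q := ∫ p, q p with hQ
  have hQ0 : 0 ≤ Q := integral_nonneg hq.nonneg
  set δ := min 1 (ε / ((Q + 1) * (2 * M + 1))) with hδ
  have hδ0 : 0 < δ := by positivity
  have hδ1 : δ ≤ 1 := min_le_left _ _
  have hδ2 : Q * (δ * (2 * M + 1)) ≤ ε := by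
    have h3 : δ ≤ ε / ((Q + 1) * (2 * M + 1)) := min_le_right _ _
    rw [le_div_iff₀ (by positivity)] at h3
    have h4 : 0 ≤ δ * (2 * M + 1) := by positivity
    linarith
  have huc := hws.uniformContinuous_of_continuous hwc
  rw [Metric.uniformContinuous_iff] at huc
  obtain ⟨η, hη, huc⟩ := huc δ hδ0
  have hQ1i : Integrable (fun a : E3 => ∫ b : E3, q (a, b)) := hqi'.integral_prod_left
  have hQ10 : ∀ a : E3, 0 ≤ ∫ b : E3, q (a, b) := fun a => integral_nonneg (fun b => hq.nonneg _)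
  have hQ1R : ∀ a : E3, (∫ b : E3, q (a, b)) ≠ 0 → ‖a‖ ≤ R := by
    intro a ha
    by_contra hcon
    apply ha
    have h3 : ∀ b, q (a, b) = 0 := by
      intro b
      by_contra h4
      exact hcon ((norm_fst_le (a, b)).trans (hR _ h4))
    simp [h3]
  have hQ1Q : ∫ a : E3, ∫ b : E3, q (a, b) = Q := by
    rw [hQ, Measure.volume_eq_prod, integral_prod _ hqi']
  have hwi : Integrable w := hwc.integrable_of_hasCompactSupport hws
  have hw3 : Integrable (fun a => w a ^ 3) := by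
    refine (hwc.pow 3).integrable_of_hasCompactSupport ?_
    exact hws.comp_left (g := fun t : ℝ => t ^ 3) (by norm_num)
  filter_upwards [tendsto_natCast_atTop_atTop.eventually_gt_atTop ((R / η) ^ 2),
    eventually_gt_atTop 0] with N hN hN0
  have hN0' : (0 : ℝ) < N := by exact_mod_cast hN0
  set s := Real.sqrt N with hs
  have hs0 : 0 < s := Real.sqrt_pos.mpr hN0'
  have hs2 : s ^ 2 = N := Real.sq_sqrt hN0'.le
  have hRs : R / η < s := by
    rw [hs]
    exact Real.lt_sqrt_of_sq_lt hN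
  have key : ∀ (z a : E3), ‖a‖ ≤ R → w (z - s⁻¹ • a) ≤ w z + δ := by
    intro z a ha
    have h3 : dist (z - s⁻¹ • a) z < η := by
      rw [dist_eq_norm, sub_sub_cancel_left, norm_neg, norm_smul, norm_inv, Real.norm_eq_abs,
        abs_of_pos hs0]
      rw [div_lt_iff₀ hη] at hRs
      rw [inv_mul_lt_iff₀ hs0]
      linarith
    have h4 := huc h3
    rw [Real.dist_eq] at h4
    linarith [(abs_lt.mp h4).2]
  -- the inner integral
  have in1 : ∀ a b : E3, ∫ c, w c * ((N : ℝ) * q (s • (a - b, a - c))) ≤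
      (s ^ 3)⁻¹ * ((w a + δ) * ((N : ℝ) * ∫ c : E3, q (s • (a - b), c))) := by
    intro a b
    have h3 := sub1 w (fun c => (N : ℝ) * q (s • (a - b), c)) s (w a + δ) a hs0
      (fun c => mul_nonneg hN0'.le (hq.nonneg _)) (by
        refine Integrable.const_mul ?_ _
        refine intb _ (hq.meas.comp (by fun_prop)) Bq R (fun _ => hq.nonneg _) (fun _ => hBq _) ?_
        intro x hx
        exact (norm_snd_le (s • (a - b), x)).trans (hR _ hx)) hw0 (by
        intro x hx
        have h4 : q (s • (a - b), x) ≠ 0 := fun h5 => hx (by simp [h5])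
        exact key a x ((norm_snd_le (s • (a - b), x)).trans (hR _ h4)))
    rw [integral_const_mul] at h3
    exact h3
  have in1' : ∀ a b : E3, 0 ≤ ∫ c, w c * ((N : ℝ) * q (s • (a - b, a - c))) := fun a b =>
    integral_nonneg (fun c => mul_nonneg (hw0 c) (mul_nonneg hN0'.le (hq.nonneg _)))
  have in2 : ∀ a : E3, ∫ b, w b * ∫ c, w c * ((N : ℝ) * q (s • (a - b, a - c))) ≤
      (s ^ 3)⁻¹ * ((w a + δ) * ((s ^ 3)⁻¹ * ((w a + δ) * ((N : ℝ) * Q)))) := by
    intro a
    have hwa : 0 ≤ w a + δ := add_nonneg (hw0 a) hδ0.le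
    have hg2i : Integrable (fun x : E3 => (s ^ 3)⁻¹ * ((w a + δ) *
        ((N : ℝ) * ∫ c : E3, q (x, c)))) := ((hQ1i.const_mul _).const_mul _).const_mul _
    have h3 : ∫ b, w b * ∫ c, w c * ((N : ℝ) * q (s • (a - b, a - c))) ≤
        ∫ b, w b * (fun x : E3 => (s ^ 3)⁻¹ * ((w a + δ) *
        ((N : ℝ) * ∫ c : E3, q (x, c)))) (s • (a - b)) := by
      refine integral_mono_of_nonneg (Eventually.of_forall fun b =>
        mul_nonneg (hw0 b) (in1' a b)) ?_ (Eventually.of_forall fun b =>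
          mul_le_mul_of_nonneg_left (in1 a b) (hw0 b))
      refine Integrable.bdd_mul (c := M) ?_ hwc.aestronglyMeasurable
        (Eventually.of_forall (fun b => hM' b))
      exact (hg2i.comp_smul hs0.ne').comp_sub_left a
    refine h3.trans ?_
    have h4 := sub1 w (fun x : E3 => (s ^ 3)⁻¹ * ((w a + δ) *
        ((N : ℝ) * ∫ c : E3, q (x, c)))) s (w a + δ) a hs0 (fun x => by
          have := hQ10 x
          positivity) hg2i hw0 (by
        intro x hx
        refine key a x (hQ1R x (fun h5 => hx ?_))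
        simp only [h5, mul_zero])
    refine h4.trans (le_of_eq ?_)
    rw [integral_const_mul, integral_const_mul, integral_const_mul, hQ1Q]
  have in2' : ∀ a : E3, 0 ≤ ∫ b, w b * ∫ c, w c * ((N : ℝ) * q (s • (a - b, a - c))) := fun a =>
    integral_nonneg (fun b => mul_nonneg (hw0 b) (in1' a b))
  have in3 : ∫ a, w a * ∫ b, w b * ∫ c, w c * ((N : ℝ) * q (s • (a - b, a - c))) ≤
      ∫ a, 1 / (N : ℝ) ^ 2 * (Q * (w a ^ 3 + δ * (2 * M + 1) * w a)) := by
    refine integral_mono_of_nonneg (Eventually.of_forall fun a =>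
        mul_nonneg (hw0 a) (in2' a)) ?_ (Eventually.of_forall fun a => ?_)
    · exact ((hw3.add (hwi.const_mul _)).const_mul _).const_mul _
    · simp only
      refine (mul_le_mul_of_nonneg_left (in2 a) (hw0 a)).trans ?_
      have h5 : (s ^ 3)⁻¹ * ((w a + δ) * ((s ^ 3)⁻¹ * ((w a + δ) * ((N : ℝ) * Q)))) =
          1 / (N : ℝ) ^ 2 * (Q * (w a + δ) ^ 2) := by
        have h6 : (s ^ 3)⁻¹ * (s ^ 3)⁻¹ * (N : ℝ) = 1 / (N : ℝ) ^ 2 := by
          have h7 : s ^ 3 * s ^ 3 = (N : ℝ) ^ 3 := by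
            rw [← hs2]
            ring
          rw [← mul_inv, h7]
          field_simp
        rw [← h6]
        ring
      rw [h5]
      have h6 : (w a + δ) ^ 2 ≤ w a ^ 2 + δ * (2 * M + 1) := by
        have h7 : δ * w a ≤ δ * M := mul_le_mul_of_nonneg_left (hM a) hδ0.le
        have h8 : δ * δ ≤ δ * 1 := mul_le_mul_of_nonneg_left hδ1 hδ0.le
        linarith
      have h9 : w a * (1 / (N : ℝ) ^ 2 * (Q * (w a + δ) ^ 2)) ≤
          w a * (1 / (N : ℝ) ^ 2 * (Q * (w a ^ 2 + δ * (2 * M + 1)))) := by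
        have := hw0 a
        gcongr
      refine h9.trans (le_of_eq ?_)
      ring
  refine in3.trans ?_
  rw [integral_const_mul, integral_const_mul, integral_add hw3 (hwi.const_mul _),
    integral_const_mul, h1]
  refine mul_le_mul_of_nonneg_left ?_ (by positivity)
  rw [mul_add, mul_one]
  linarith

theorem mass3 : S_IND → S_JAB → S_MASS3 := by
  intro hI hJ u hu R1 R2 f1 f2 hf1 hf2 q hq ε hε
  obtain ⟨Bq, hBq⟩ := hq.bdd
  set w : E3 → ℝ := fun z => ‖u z‖ ^ 2 with hw
  have hwc : Continuous w := (hu.diff.continuous.norm).pow 2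
  have hws : HasCompactSupport w := hu.supp.comp_left (g := fun t : ℂ => ‖t‖ ^ 2) (by simp)
  have hw0 : ∀ a, 0 ≤ w a := fun a => by positivity
  have hwi : Integrable w := hwc.integrable_of_hasCompactSupport hws
  have h6 : ∫ z, ‖u z‖ ^ 6 = ∫ z, w z ^ 3 := by
    refine integral_congr_ae (Eventually.of_forall (fun z => ?_))
    simp only [hw]
    ring
  filter_upwards [tri w hwc hws hw0 hu.norm q hq ε hε] with N hN i j k hij hik hjk
  obtain ⟨j1, j2, j3, j4, j5, j6, j7⟩ := hJ R1 R2 f1 f2 hf1 hf2 N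
  have hm1 : Measurable (fun x : Cfg N => (N : ℝ) * q (Real.sqrt N • (x i - x j, x i - x k))) :=
    (hq.meas.comp (by fun_prop : Measurable (fun x : Cfg N =>
      Real.sqrt N • (x i - x j, x i - x k)))).const_mul _
  have hm2 : Measurable (fun x : Cfg N => (JA f1 f2 (Finset.univ \ {i, j, k}) x) ^ 2) :=
    ((j1 _).continuous.measurable).pow_const 2
  have hind := hI N (fun _ => w) (fun _ => hwi) (fun _ => hw0) {i, j, k}
    (fun x : Cfg N => (N : ℝ) * q (Real.sqrt N • (x i - x j, x i - x k)))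
    (fun x : Cfg N => (JA f1 f2 (Finset.univ \ {i, j, k}) x) ^ 2) hm1 hm2
    ⟨(N : ℝ) * Bq, fun x => by
      rw [abs_of_nonneg (mul_nonneg (Nat.cast_nonneg N) (hq.nonneg _))]
      exact mul_le_mul_of_nonneg_left (hBq _) (Nat.cast_nonneg N)⟩
    ⟨1, fun x => by
      obtain ⟨h7, h8⟩ := j2 (Finset.univ \ {i, j, k}) x
      rw [abs_of_nonneg (by positivity)]
      exact pow_le_one₀ h7 h8⟩
    (by
      intro x y hxy
      have e1 := hxy i (by simp)
      have e2 := hxy j (by simp)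
      have e3 := hxy k (by simp)
      simp only [e1, e2, e3])
    (by
      intro x y hxy
      rw [j4 (Finset.univ \ {i, j, k}) x y (fun l hl => hxy l (Finset.mem_sdiff.mp hl).2)])
  have hone : ∏ _l : Fin N, ∫ z, w z = 1 := by
    rw [hu.norm]
    simp
  rw [hone, one_mul] at hind
  have hlhs : ∫ x : Cfg N, wu u x * ((N : ℝ) * q (Real.sqrt N • (x i - x j, x i - x k))
        * (JA f1 f2 (Finset.univ \ {i, j, k}) x) ^ 2) =
      (∫ x : Cfg N, (∏ l, w (x l)) * ((N : ℝ) * q (Real.sqrt N • (x i - x j, x i - x k)))) *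
      ZA f1 f2 u (Finset.univ \ {i, j, k}) := hind
  rw [hlhs]
  have hZ : 0 ≤ ZA f1 f2 u (Finset.univ \ {i, j, k}) := by
    refine integral_nonneg (fun x => mul_nonneg ?_ (by positivity))
    exact Finset.prod_nonneg (fun l _ => by positivity)
  refine mul_le_mul_of_nonneg_right ?_ hZ
  have hmg := marg3 w hwi hu.norm i j k hij hik hjk
    (fun a b c => (N : ℝ) * q (Real.sqrt N • (a - b, a - c)))
    ((hq.meas.comp (by fun_prop : Measurable (fun p : E3 × (E3 × E3) =>
      Real.sqrt N • (p.1 - p.2.1, p.1 - p.2.2)))).const_mul _)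
    ⟨(N : ℝ) * Bq, fun a b c => by
      rw [abs_of_nonneg (mul_nonneg (Nat.cast_nonneg N) (hq.nonneg _))]
      exact mul_le_mul_of_nonneg_left (hBq _) (Nat.cast_nonneg N)⟩
  rw [hmg, h6]
  exact hN

end Pool.Agent.W140.TWB
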